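import Pool.Agent.N165.CU.Stm

set_option autoImplicit false

/-!
# Project CU (helper165), part ALG: every polynomial plus `∑ u_k v_k` is equivalent to a cubic
-/

namespace Pool.Agent.N749.CU

open MvPolynomial Pool.Agent.N165.CU

section

variable {R : Type} [CommRing R]

theorem degX {σ : Type} (i : σ) : (X i : MvPolynomial σ R).totalDegree ≤ 1 := by
  refine (totalDegree_monomial_le _ _).trans ?_
  rw [Finsupp.sum_single_index rfl]
  exact le_refl 1

/-- the extension of an automorphism to further variables -/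
noncomputable def extHom {σ τ : Type} (Ψ : MvPolynomial σ R →ₐ[R] MvPolynomial σ R) :
    MvPolynomial (σ ⊕ τ) R →ₐ[R] MvPolynomial (σ ⊕ τ) R :=
  aeval (Sum.elim (fun x => rename Sum.inl (Ψ (X x))) fun z => X (Sum.inr z))

theorem extHom_inl {σ τ : Type} (Ψ : MvPolynomial σ R →ₐ[R] MvPolynomial σ R)
    (g : MvPolynomial σ R) :
    extHom (τ := τ) Ψ (rename Sum.inl g) = rename Sum.inl (Ψ g) := by
  have h : (extHom (τ := τ) Ψ).comp (rename Sum.inl) = (rename Sum.inl).comp Ψ := by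
    apply algHom_ext
    intro x
    simp [extHom]
  exact congrArg (fun F => F g) h

theorem extHom_inr {σ τ : Type} (Ψ : MvPolynomial σ R →ₐ[R] MvPolynomial σ R) (z : τ) :
    extHom (τ := τ) Ψ (X (Sum.inr z)) = X (Sum.inr z) := by
  simp [extHom]

theorem extHom_comp {σ τ : Type} (Ψ Ψ' : MvPolynomial σ R →ₐ[R] MvPolynomial σ R)
    (h : ∀ g, Ψ (Ψ' g) = g) :
    (extHom (τ := τ) Ψ).comp (extHom Ψ') = AlgHom.id R _ := by
  apply algHom_ext
  rintro (x | z)
  · rw [AlgHom.comp_apply, AlgHom.id_apply]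
    have h1 : extHom (τ := τ) Ψ' (X (Sum.inl x)) = rename Sum.inl (Ψ' (X x)) := by
      simp [extHom]
    rw [h1, extHom_inl, h, rename_X]
  · rw [AlgHom.comp_apply, AlgHom.id_apply, extHom_inr, extHom_inr]

/-- the extension of an automorphism to further variables -/
noncomputable def extEquiv {σ τ : Type} (Ψ : MvPolynomial σ R ≃ₐ[R] MvPolynomial σ R) :
    MvPolynomial (σ ⊕ τ) R ≃ₐ[R] MvPolynomial (σ ⊕ τ) R :=
  AlgEquiv.ofAlgHom (extHom Ψ.toAlgHom) (extHom Ψ.symm.toAlgHom)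
    (extHom_comp _ _ fun g => Ψ.apply_symm_apply g) (extHom_comp _ _ fun g => Ψ.symm_apply_apply g)

theorem extEquiv_quad {σ κ : Type} [Fintype κ] (Ψ : MvPolynomial σ R ≃ₐ[R] MvPolynomial σ R)
    (g : MvPolynomial σ R) : extEquiv Ψ (quad g κ) = quad (Ψ g) κ := by
  unfold quad
  rw [map_add, map_sum]
  congr 1
  · exact extHom_inl _ g
  · refine Finset.sum_congr rfl fun k _ => ?_
    rw [map_mul]
    exact congrArg₂ _ (extHom_inr _ _) (extHom_inr _ _)

/-- translation of the further variables -/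
noncomputable def shHom {σ τ : Type} (w : τ → MvPolynomial σ R) :
    MvPolynomial (σ ⊕ τ) R →ₐ[R] MvPolynomial (σ ⊕ τ) R :=
  aeval (Sum.elim (fun x => X (Sum.inl x)) fun z => X (Sum.inr z) + rename Sum.inl (w z))

theorem shHom_inl {σ τ : Type} (w : τ → MvPolynomial σ R) (g : MvPolynomial σ R) :
    shHom w (rename Sum.inl g) = rename Sum.inl g := by
  have h : (shHom w).comp (rename Sum.inl) = rename Sum.inl := by
    apply algHom_ext
    intro x
    simp [shHom]
  exact congrArg (fun F => F g) h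

theorem shHom_inr {σ τ : Type} (w : τ → MvPolynomial σ R) (z : τ) :
    shHom w (X (Sum.inr z)) = X (Sum.inr z) + rename Sum.inl (w z) := by
  simp [shHom]

theorem shHom_comp {σ τ : Type} (w w' : τ → MvPolynomial σ R) (h : ∀ z, w z + w' z = 0) :
    (shHom w).comp (shHom w') = AlgHom.id R _ := by
  apply algHom_ext
  rintro (x | z)
  · have h1 : ∀ v : τ → MvPolynomial σ R, shHom v (X (Sum.inl x)) = X (Sum.inl x) := by
      intro v
      simp [shHom]
    rw [AlgHom.comp_apply, AlgHom.id_apply, h1, h1]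
  · rw [AlgHom.comp_apply, AlgHom.id_apply, shHom_inr, map_add, shHom_inr, shHom_inl, add_assoc,
      ← map_add, h, map_zero, add_zero]

/-- translation of the further variables -/
noncomputable def shEquiv {σ τ : Type} (w : τ → MvPolynomial σ R) :
    MvPolynomial (σ ⊕ τ) R ≃ₐ[R] MvPolynomial (σ ⊕ τ) R :=
  AlgEquiv.ofAlgHom (shHom w) (shHom fun z => -w z)
    (shHom_comp _ _ fun z => add_neg_cancel _) (shHom_comp _ _ fun z => neg_add_cancel _)

end

/-- a bijection of the sets of variables -/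
def ee (ρ K κ : Type) : ρ ⊕ ((K ⊕ κ) ⊕ (K ⊕ κ)) ≃ (ρ ⊕ (K ⊕ K)) ⊕ (κ ⊕ κ) where
  toFun
    | Sum.inl x => Sum.inl (Sum.inl x)
    | Sum.inr (Sum.inl (Sum.inl k)) => Sum.inl (Sum.inr (Sum.inl k))
    | Sum.inr (Sum.inl (Sum.inr k)) => Sum.inr (Sum.inl k)
    | Sum.inr (Sum.inr (Sum.inl k)) => Sum.inl (Sum.inr (Sum.inr k))
    | Sum.inr (Sum.inr (Sum.inr k)) => Sum.inr (Sum.inr k)
  invFun
    | Sum.inl (Sum.inl x) => Sum.inl x
    | Sum.inl (Sum.inr (Sum.inl k)) => Sum.inr (Sum.inl (Sum.inl k))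
    | Sum.inr (Sum.inl k) => Sum.inr (Sum.inl (Sum.inr k))
    | Sum.inl (Sum.inr (Sum.inr k)) => Sum.inr (Sum.inr (Sum.inl k))
    | Sum.inr (Sum.inr k) => Sum.inr (Sum.inr (Sum.inr k))
  left_inv := by rintro (x | ((k | k) | (k | k))) <;> rfl
  right_inv := by rintro ((x | (k | k)) | (k | k)) <;> rfl

theorem ee_quad {R : Type} [CommRing R] {ρ K κ : Type} [Fintype K] [Fintype κ]
    (h : MvPolynomial ρ R) :
    rename (ee ρ K κ) (quad h (K ⊕ κ)) = quad (quad h K) κ := by
  unfold quad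
  simp only [map_add, map_sum, map_mul, rename_X, rename_rename, Fintype.sum_sum_type, ee,
    Equiv.coe_fn_mk]
  rw [← add_assoc]
  congr 2

/-- the property to be proved -/
def Pr (R : Type) [CommRing R] (ρ : Type) (h : MvPolynomial ρ R) : Prop :=
  ∃ (κ : Type) (_ : Fintype κ) (Φ : MvPolynomial (ρ ⊕ (κ ⊕ κ)) R ≃ₐ[R]
    MvPolynomial (ρ ⊕ (κ ⊕ κ)) R), 2 ≤ Fintype.card κ ∧ (Φ (quad h κ)).totalDegree ≤ 3

theorem Pr_trans {R : Type} [CommRing R] {ρ K : Type} [Fintype K] (h : MvPolynomial ρ R)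
    (Ψ : MvPolynomial (ρ ⊕ (K ⊕ K)) R ≃ₐ[R] MvPolynomial (ρ ⊕ (K ⊕ K)) R)
    (H : Pr R (ρ ⊕ (K ⊕ K)) (Ψ (quad h K))) : Pr R ρ h := by
  obtain ⟨κ, hκ, Φ, h2, h3⟩ := H
  refine ⟨K ⊕ κ, inferInstance, (renameEquiv R (ee ρ K κ)).trans ((extEquiv Ψ).trans
    (Φ.trans (renameEquiv R (ee ρ K κ)).symm)), ?_, ?_⟩
  · rw [Fintype.card_sum]
    omega
  · have e1 : ((renameEquiv R (ee ρ K κ)).trans ((extEquiv Ψ).trans
        (Φ.trans (renameEquiv R (ee ρ K κ)).symm))) (quad h (K ⊕ κ)) =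
        rename (ee ρ K κ).symm (Φ (quad (Ψ (quad h K)) κ)) := by
      rw [← extEquiv_quad, ← ee_quad]
      rfl
    rw [e1]
    exact (totalDegree_rename_le _ _).trans h3

theorem split_m {ρ : Type} (r s : ℕ) : ∀ m : ρ →₀ ℕ, (m.sum fun _ e => e) ≤ r + s →
    ∃ m₁ m₂ : ρ →₀ ℕ, m = m₁ + m₂ ∧ (m₁.sum fun _ e => e) ≤ r ∧ (m₂.sum fun _ e => e) ≤ s := by
  classical
  induction r with
  | zero =>
    intro m hm
    exact ⟨0, m, (zero_add m).symm, by simp, by simpa using hm⟩
  | succ r ih =>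
    intro m hm
    by_cases h0 : m = 0
    · exact ⟨0, 0, by simp [h0], by simp, by simp⟩
    · obtain ⟨i, hi⟩ := Finsupp.ne_iff.1 h0
      have hi' : 1 ≤ m i := Nat.one_le_iff_ne_zero.2 (by simpa using hi)
      have hle : Finsupp.single i 1 ≤ m := by
        rw [Finsupp.single_le_iff]
        exact hi'
      obtain ⟨m', hm'⟩ : ∃ m', m = Finsupp.single i 1 + m' := ⟨m - Finsupp.single i 1,
        (add_tsub_cancel_of_le hle).symm⟩
      have hadd : ∀ a b : ρ →₀ ℕ, ((a + b).sum fun _ e => e) =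
          (a.sum fun _ e => e) + (b.sum fun _ e => e) := fun a b =>
        Finsupp.sum_add_index' (fun _ => rfl) (fun _ _ _ => rfl)
      have hs : ((Finsupp.single i 1 : ρ →₀ ℕ).sum fun _ e => e) = 1 :=
        Finsupp.sum_single_index rfl
      rw [hm', hadd, hs] at hm
      obtain ⟨m₁, m₂, h1, h2, h3⟩ := ih m' (by omega)
      refine ⟨Finsupp.single i 1 + m₁, m₂, by rw [hm', h1, add_assoc], ?_, h3⟩
      rw [hadd, hs]
      omega

theorem step {R : Type} [CommRing R] {ρ : Type} (h : MvPolynomial ρ R) (d r : ℕ)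
    (hd : h.totalDegree ≤ d) (hr : d ≤ r + r) (hr1 : 1 ≤ r) :
    ∃ (K : Type) (_ : Fintype K) (Ψ : MvPolynomial (ρ ⊕ (K ⊕ K)) R ≃ₐ[R]
      MvPolynomial (ρ ⊕ (K ⊕ K)) R), (Ψ (quad h K)).totalDegree ≤ r + 1 := by
  classical
  have hsp : ∀ m : {m // m ∈ h.support}, ∃ m₁ m₂ : ρ →₀ ℕ, m.1 = m₁ + m₂ ∧
      (m₁.sum fun _ e => e) ≤ r ∧ (m₂.sum fun _ e => e) ≤ r := fun m =>
    split_m r r m.1 (((le_totalDegree m.2).trans hd).trans hr)
  choose m₁ m₂ hm h1 h2 using hsp
  let a : {m // m ∈ h.support} → MvPolynomial ρ R := fun m => monomial (m₁ m) 1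
  let b : {m // m ∈ h.support} → MvPolynomial ρ R := fun m => monomial (m₂ m) (coeff m.1 h)
  have ha : ∀ m, (a m).totalDegree ≤ r := fun m => (totalDegree_monomial_le _ _).trans (h1 m)
  have hb : ∀ m, (b m).totalDegree ≤ r := fun m => (totalDegree_monomial_le _ _).trans (h2 m)
  have hsum : h = ∑ m : {m // m ∈ h.support}, a m * b m := by
    have e1 : ∀ m : {m // m ∈ h.support}, a m * b m = monomial m.1 (coeff m.1 h) := by
      intro m
      show monomial (m₁ m) 1 * monomial (m₂ m) (coeff m.1 h) = _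
      rw [monomial_mul, ← hm, one_mul]
    rw [Finset.sum_congr rfl fun m _ => e1 m,
      Finset.sum_coe_sort h.support fun m => monomial m (coeff m h)]
    exact (support_sum_monomial_coeff h).symm
  let w : {m // m ∈ h.support} ⊕ {m // m ∈ h.support} → MvPolynomial ρ R :=
    Sum.elim a fun m => -b m
  refine ⟨{m // m ∈ h.support}, inferInstance, shEquiv w, ?_⟩
  have e2 : shEquiv w (quad h {m // m ∈ h.support}) =
      ∑ m : {m // m ∈ h.support}, (X (Sum.inr (Sum.inl m)) * X (Sum.inr (Sum.inr m)) -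
        X (Sum.inr (Sum.inl m)) * rename Sum.inl (b m) +
        rename Sum.inl (a m) * X (Sum.inr (Sum.inr m))) := by
    show shHom w (quad h {m // m ∈ h.support}) = _
    unfold quad
    have e3 : (rename Sum.inl h : MvPolynomial (ρ ⊕ ({m // m ∈ h.support} ⊕
        {m // m ∈ h.support})) R) = ∑ m : {m // m ∈ h.support}, rename Sum.inl (a m * b m) :=
      (congrArg (rename Sum.inl) hsum).trans (map_sum _ _ _)
    rw [map_add, shHom_inl, map_sum, e3, ← Finset.sum_add_distrib]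
    refine Finset.sum_congr rfl fun m _ => ?_
    rw [map_mul, map_mul, shHom_inr, shHom_inr]
    show rename Sum.inl (a m) * rename Sum.inl (b m) +
      (X (Sum.inr (Sum.inl m)) + rename Sum.inl (a m)) *
      (X (Sum.inr (Sum.inr m)) + rename Sum.inl (-b m)) = _
    rw [map_neg]
    ring
  rw [e2]
  refine totalDegree_finsetSum_le fun m _ => ?_
  refine (totalDegree_add _ _).trans (max_le ((totalDegree_sub _ _).trans (max_le ?_ ?_)) ?_)
  · refine (totalDegree_mul _ _).trans ?_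
    have := degX (R := R) (Sum.inr (Sum.inl m) :
      ρ ⊕ ({m // m ∈ h.support} ⊕ {m // m ∈ h.support}))
    have := degX (R := R) (Sum.inr (Sum.inr m) :
      ρ ⊕ ({m // m ∈ h.support} ⊕ {m // m ∈ h.support}))
    omega
  · refine (totalDegree_mul _ _).trans ?_
    have := degX (R := R) (Sum.inr (Sum.inl m) :
      ρ ⊕ ({m // m ∈ h.support} ⊕ {m // m ∈ h.support}))
    have := (totalDegree_rename_le (Sum.inl : ρ → ρ ⊕ ({m // m ∈ h.support} ⊕
      {m // m ∈ h.support})) (b m)).trans (hb m)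
    omega
  · refine (totalDegree_mul _ _).trans ?_
    have := degX (R := R) (Sum.inr (Sum.inr m) :
      ρ ⊕ ({m // m ∈ h.support} ⊕ {m // m ∈ h.support}))
    have := (totalDegree_rename_le (Sum.inl : ρ → ρ ⊕ ({m // m ∈ h.support} ⊕
      {m // m ∈ h.support})) (a m)).trans (ha m)
    omega

theorem main_ind (R : Type) [CommRing R] (d : ℕ) : ∀ (ρ : Type) (h : MvPolynomial ρ R),
    h.totalDegree ≤ d → Pr R ρ h := by
  induction d using Nat.strong_induction_on with
  | _ d ih =>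
    intro ρ h hd
    by_cases h3 : d ≤ 3
    · refine ⟨Bool, inferInstance, AlgEquiv.refl, by simp, ?_⟩
      show (quad h Bool).totalDegree ≤ 3
      unfold quad
      refine (totalDegree_add _ _).trans (max_le ?_ ?_)
      · exact (totalDegree_rename_le _ _).trans (hd.trans h3)
      · refine totalDegree_finsetSum_le fun k _ => ?_
        refine (totalDegree_mul _ _).trans ?_
        have := degX (R := R) (Sum.inr (Sum.inl k) : ρ ⊕ (Bool ⊕ Bool))
        have := degX (R := R) (Sum.inr (Sum.inr k) : ρ ⊕ (Bool ⊕ Bool))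
        omega
    · obtain ⟨K, hK, Ψ, hΨ⟩ := step h d ((d + 1) / 2) hd (by omega) (by omega)
      exact Pr_trans h Ψ (ih ((d + 1) / 2 + 1) (by omega) _ _ hΨ)

/-- **ALG.** -/
theorem alg : S_Alg := fun R _ ρ _ h => main_ind R _ ρ h le_rfl

end Pool.Agent.N749.CU
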